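import Pool.Agent.DBN.PhiDefs

/-!
# The zeros of the de Bruijn-Newman functions `H_t`: the definitions of the theorem

`H t z` is the function `H_t(z)` of `Pool.Agent.DBN.PhiDefs`.
-/

set_option autoImplicit false

namespace Pool.Agent.DBF

open Complex MeasureTheory Set Metric
open Pool.Agent.DBN

/-! ### Unconditional results, all times from `A / (log X)²` on -/

/-- for `A / (log X)² ≤ t ≤ c / log X` all but `X log X exp (-κ t (log X)²)` zeros `z` of `H_t` with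
`X ≤ Re z / 2 ≤ 2 X`, `|Im z| ≤ K`, counted with multiplicity, are real and simple -/
def FewS (c : ℝ) : Prop :=
  ∀ K : ℝ, 0 < K → ∃ A κ X₀ : ℝ, 0 < A ∧ 0 < κ ∧ ∀ t X : ℝ, X₀ ≤ X →
    A ≤ t * Real.log X ^ 2 → t * Real.log X ≤ c → ∀ F : Finset ℂ,
      (∀ z ∈ F, H t z = 0 ∧ X ≤ z.re / 2 ∧ z.re / 2 ≤ 2 * X ∧ |z.im| ≤ K ∧
        (z.im = 0 → deriv (H t) z = 0)) →
      ((∑ z ∈ F, analyticOrderNatAt (H t) z : ℕ) : ℝ) ≤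
        X * Real.log X * Real.exp (-(κ * (t * Real.log X ^ 2)))

/-- for `A / (log X)² ≤ t ≤ c / log X` the function `H_t` has at least
`(1 - ε) X log X / (2 π)` real simple zeros in `[2 X, 4 X]` -/
def ManyReal (c : ℝ) : Prop :=
  ∀ ε : ℝ, 0 < ε → ∃ A X₀ : ℝ, 0 < A ∧ ∀ t X : ℝ, X₀ ≤ X →
    A ≤ t * Real.log X ^ 2 → t * Real.log X ≤ c →
    ∃ F : Finset ℝ, (∀ x ∈ F, H t x = 0 ∧ deriv (H t) x ≠ 0 ∧ 2 * X ≤ x ∧ x ≤ 4 * X) ∧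
      (1 - ε) * (X * Real.log X / (2 * Real.pi)) ≤ (F.card : ℝ)

/-- all zeros `z` of `H_t` with `|Re z - 2 T| ≤ R`, `|Im z| ≤ K` are real and simple, and the real
ones have the distance `(4 π + O(ε)) / log T` -/
def CrysR (R K ε t T : ℝ) : Prop :=
  (∀ z : ℂ, |z.re - 2 * T| ≤ R → |z.im| ≤ K → H t z = 0 → z.im = 0 ∧ deriv (H t) z ≠ 0) ∧
  (∀ x y : ℝ, |x - 2 * T| ≤ R → |y - 2 * T| ≤ R → x < y → H t x = 0 → H t y = 0 →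
    4 * Real.pi - ε ≤ (y - x) * Real.log T) ∧
  (∀ x : ℝ, |x - 2 * T| ≤ R → ∃ y : ℝ, x ≤ y ∧ (y - x) * Real.log T ≤ 4 * Real.pi + ε ∧
    H t y = 0)

/-- for `A / (log X)² ≤ s ≤ c / log X`: for all `T` in `[X, 2 X]` outside a set of measure
`X exp (-κ s (log X)²)` the zeros of `H_t` with `|Re z - 2 T| ≤ exp (κ s (log X)²) t log T`,
`|Im z| ≤ K` are as in `CrysR`, at all times `t` with `s ≤ t ≤ c / log T` -/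
def UniAll (c : ℝ) : Prop :=
  ∀ K ε : ℝ, 0 < K → 0 < ε → ∃ A κ X₀ : ℝ, 0 < A ∧ 0 < κ ∧ ∀ s X : ℝ, X₀ ≤ X →
    A ≤ s * Real.log X ^ 2 → s * Real.log X ≤ c →
    volume {T : ℝ | X ≤ T ∧ T ≤ 2 * X ∧ ∃ t : ℝ, s ≤ t ∧ t * Real.log T ≤ c ∧
      ¬ CrysR (Real.exp (κ * (s * Real.log X ^ 2)) * (t * Real.log T)) K ε t T} ≤
    ENNReal.ofReal (X * Real.exp (-(κ * (s * Real.log X ^ 2))))

/-! ### The threshold -/

/-- for every `δ > 0` the function `ζ` has no zeros with `Re s ≥ 1/2 + c/4 + δ` and large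
imaginary part -/
def ZeroFree (c : ℝ) : Prop :=
  ∀ δ : ℝ, 0 < δ → ∃ T₀ : ℝ, ∀ s : ℂ, 1 / 2 + c / 4 + δ ≤ s.re → T₀ ≤ s.im →
    riemannZeta s ≠ 0

/-- for small `t > 0` all zeros `z` of `H_t` with `exp (c₁ / t) ≤ Re z / 2 ≤ exp (c₂ / t)` and
`|Im z| ≤ K` are real -/
def RealZ (c₁ c₂ : ℝ) : Prop :=
  ∀ K : ℝ, 0 < K → ∃ t₀ : ℝ, 0 < t₀ ∧ ∀ t : ℝ, 0 < t → t ≤ t₀ → ∀ z : ℂ, |z.im| ≤ K →
    Real.exp (c₁ / t) ≤ z.re / 2 → z.re / 2 ≤ Real.exp (c₂ / t) → H t z = 0 → z.im = 0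

/-- for small `t > 0` all zeros `z` of `H_t` with `exp (c₁ / t) ≤ Re z / 2 ≤ exp (c₂ / t)` and
`|Im z| ≤ K` are real and simple, and consecutive ones have the distance
`(4 π + o(1)) / log (Re z)` -/
def Regular (c₁ c₂ : ℝ) : Prop :=
  ∀ K ε : ℝ, 0 < K → 0 < ε → ∃ t₀ : ℝ, 0 < t₀ ∧ ∀ t : ℝ, 0 < t → t ≤ t₀ →
    (∀ z : ℂ, |z.im| ≤ K → Real.exp (c₁ / t) ≤ z.re / 2 → z.re / 2 ≤ Real.exp (c₂ / t) →
      H t z = 0 → z.im = 0 ∧ deriv (H t) z ≠ 0) ∧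
    (∀ x y : ℝ, Real.exp (c₁ / t) ≤ x / 2 → x / 2 ≤ Real.exp (c₂ / t) → x < y → H t x = 0 →
      H t y = 0 → 4 * Real.pi - ε ≤ (y - x) * Real.log x) ∧
    (∀ x : ℝ, Real.exp (c₁ / t) ≤ x / 2 → x / 2 ≤ Real.exp (c₂ / t) →
      ∃ y : ℝ, x < y ∧ (y - x) * Real.log x ≤ 4 * Real.pi + ε ∧ H t y = 0)

/-- `t = c / log T`, `T → ∞`: the zeros `z` of `H_t` with `|Re z - 2 T| ≤ 1`, `δ ≤ |Im z| ≤ K`
are the points `2 γ ± 2 i (β - 1/2 - c/4)`, `ζ(β + i γ) = 0`, up to `o(1)` -/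
def Motion (c : ℝ) : Prop :=
  ∀ δ r K : ℝ, 0 < δ → 0 < r → 0 < K → ∃ T₀ : ℝ, 2 ≤ T₀ ∧ ∀ T : ℝ, T₀ ≤ T →
    (∀ z : ℂ, |z.re - 2 * T| ≤ 1 → δ ≤ |z.im| → |z.im| ≤ K → H (c / Real.log T) z = 0 →
      ∃ ρ : ℂ, riemannZeta ρ = 0 ∧ |2 * ρ.im - z.re| ≤ r ∧
        |2 * (ρ.re - 1 / 2 - c / 4) - abs z.im| ≤ r) ∧
    (∀ ρ : ℂ, |ρ.im - T| ≤ 1 / 2 → 1 / 2 + c / 4 + δ ≤ ρ.re → riemannZeta ρ = 0 →
      ∃ z : ℂ, H (c / Real.log T) z = 0 ∧ |z.re - 2 * ρ.im| ≤ r ∧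
        |z.im - 2 * (ρ.re - 1 / 2 - c / 4)| ≤ r)

/-- the number of zeros of the entire function `f` in the closed disc with centre `s` and radius
`r`, counted with multiplicity -/
noncomputable def zeroCount (f : ℂ → ℂ) (s : ℂ) (r : ℝ) : ℤ :=
  ∑ᶠ u, MeromorphicOn.divisor f (closedBall s r) u

/-- every closed disc which does not meet the real line, translated by `2 T`, contains `o(log T)`
zeros of `H_{c / log T}` -/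
def FewZeros (c : ℝ) : Prop :=
  ∀ (w : ℂ) (r : ℝ), 0 < r → r < |w.im| → ∀ η : ℝ, 0 < η → ∃ T₀ : ℝ, ∀ T : ℝ, T₀ ≤ T →
    (zeroCount (H (c / Real.log T)) (2 * T + w) r : ℝ) ≤ η * Real.log T

/-- `ζ(σ + i T) = O(T^(a + ε))` for every `ε > 0`: Lindelöf's function is at most `a` at `σ` -/
def MuLe (σ a : ℝ) : Prop :=
  ∀ ε : ℝ, 0 < ε → ∃ C : ℝ, ∀ T : ℝ, 2 ≤ T → ‖riemannZeta (σ + T * I)‖ ≤ C * T ^ (a + ε)

/-- the Lindelöf hypothesis -/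
def LH : Prop :=
  ∀ ε : ℝ, 0 < ε → ∃ C : ℝ, ∀ t : ℝ, ‖riemannZeta (1 / 2 + t * I)‖ ≤ C * (1 + |t|) ^ ε

end Pool.Agent.DBF
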