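import Pool.Agent.DBF.Defs
import Pool.Agent.DBC.Final8

/-!
# The zeros of the de Bruijn-Newman functions `H_t`: the theorem

The definitions of `Pool.Agent.DBF.Defs` are word for word those of the proof.
-/

set_option autoImplicit false

namespace Pool.Agent.DBF

theorem fewS_eq (c : ℝ) : FewS c = Pool.Agent.DBS.FewS c := rfl

theorem manyReal_eq (c : ℝ) : ManyReal c = Pool.Agent.DBB.ManyReal3 c := rfl

theorem uniAll_eq (c : ℝ) : UniAll c = Pool.Agent.DBS.UniAll c := rfl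

theorem zeroFree_eq (c : ℝ) : ZeroFree c = Pool.Agent.DBC.ZeroFree c := rfl

theorem realZ_eq (a b : ℝ) : RealZ a b = Pool.Agent.DBC.RealZ a b := rfl

theorem regular_eq (a b : ℝ) : Regular a b = Pool.Agent.DBC.Regular a b := rfl

theorem motion_eq (c : ℝ) : Motion c = Pool.Agent.DBC.Motion c := rfl

theorem fewZeros_eq (c : ℝ) : FewZeros c = Pool.Agent.DBN.FewZeros c := rfl

theorem muLe_eq (σ a : ℝ) : MuLe σ a = Pool.Agent.DBN.MuLe σ a := rfl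

theorem lh_eq : LH = Pool.Agent.DBN.LH := rfl

/-- the theorem -/
theorem main :
    (∀ c : ℝ, 0 < c → FewS c ∧ ManyReal c ∧ UniAll c) ∧
    ∃ Λ : ℝ, 0 ≤ Λ ∧ Λ ≤ 27 / 10 ∧
      (∀ c : ℝ, 0 ≤ c →
        ((Λ ≤ c ∧ ZeroFree c) ↔ ∀ c₁ c₂ : ℝ, c < c₁ → c₁ < c₂ → RealZ c₁ c₂) ∧
        ((Λ ≤ c ∧ ZeroFree c) ↔ ∀ c₁ c₂ : ℝ, c < c₁ → c₁ < c₂ → Regular c₁ c₂)) ∧
      (∀ c : ℝ, Λ < c → Motion c) ∧ (∀ c : ℝ, Λ ≤ c ↔ FewZeros c) ∧
      (∀ c : ℝ, 0 < c → (Λ ≤ c ↔ ∀ σ : ℝ, MuLe (1 / 2 + σ) (c / 16 + σ ^ 2 / c - σ / 2))) ∧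
      (LH ↔ Λ = 0) := by
  simp only [fewS_eq, manyReal_eq, uniAll_eq, zeroFree_eq, realZ_eq, regular_eq, motion_eq,
    fewZeros_eq, muLe_eq, lh_eq]
  exact Pool.Agent.DBC.main9

end Pool.Agent.DBF
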